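import Pool.Agent.HUK.StmtsA
import Pool.Agent.HIK.All

/-! Row FRC of squad HUK: power saving for the fractions (helper20). -/

set_option autoImplicit false

namespace Pool.Agent.HUK.H20

open Polynomial NumberField Pool.Agent.HIK Pool.Agent.HIP

/-- the coefficients of the minimal polynomial of an element of small house -/
theorem coef {k : Type} [Field k] [NumberField k] (a : 𝓞 k) (Y : ℝ) (hY : 1 ≤ Y)
    (ha : house (a : k) ≤ Y) (i : ℕ) :
    ((|(minpoly ℤ (a : k)).coeff i| : ℤ) : ℝ) ≤ (2 * Y) ^ Module.finrank ℚ k := by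
  obtain ⟨m, hm⟩ : ∃ m, m = Module.finrank ℚ k := ⟨_, rfl⟩
  rw [← hm]
  have hai : IsIntegral ℤ (a : k) := a.isIntegral_coe
  have hmp : minpoly ℚ (a : k) = (minpoly ℤ (a : k)).map (algebraMap ℤ ℚ) :=
    minpoly.isIntegrallyClosed_eq_field_fractions' ℚ hai
  have h1 := Embeddings.coeff_bdd_of_norm_le (A := ℂ) (B := Y) (x := (a : k))
    (fun φ => (norm_embedding_le_house (a : k) φ).trans ha) i
  rw [hmp, coeff_map, ← hm] at h1
  have h2 : ‖(algebraMap ℤ ℚ) ((minpoly ℤ (a : k)).coeff i)‖ =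
      ((|(minpoly ℤ (a : k)).coeff i| : ℤ) : ℝ) := by
    rw [eq_intCast, Int.norm_cast_rat, Int.norm_eq_abs, Int.cast_abs]
  rw [h2, max_eq_left hY] at h1
  have h3 : ((m.choose (m / 2) : ℕ) : ℝ) ≤ 2 ^ m := by
    exact_mod_cast Nat.choose_le_two_pow m (m / 2)
  calc ((|(minpoly ℤ (a : k)).coeff i| : ℤ) : ℝ) ≤ Y ^ m * (m.choose (m / 2) : ℕ) := h1
    _ ≤ Y ^ m * 2 ^ m := by
        apply mul_le_mul_of_nonneg_left h3
        positivity
    _ = (2 * Y) ^ m := by
        rw [mul_pow]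
        ring

/-- fractions of small house are zeros of integral polynomials with small coefficients -/
theorem mem_Ap {E : Type} [Field E] [CharZero E] {k : Type} [Field k] [NumberField k]
    (σ : k →+* E) (w : 𝓞 k) (b X A : ℕ) (hX : 2 ≤ X) (hb : 1 ≤ b) (hbA : b ≤ X ^ A)
    (hw : house (w : k) ≤ ((2 * (b * X) : ℕ) : ℝ)) :
    σ w / (b : E) ∈ Ap E (Module.finrank ℚ k) (X ^ ((2 * A + 3) * Module.finrank ℚ k)) := by
  obtain ⟨m, hm⟩ : ∃ m, m = Module.finrank ℚ k := ⟨_, rfl⟩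
  have hai : IsIntegral ℤ (w : k) := w.isIntegral_coe
  have hmp : minpoly ℚ (w : k) = (minpoly ℤ (w : k)).map (algebraMap ℤ ℚ) :=
    minpoly.isIntegrallyClosed_eq_field_fractions' ℚ hai
  have hb0 : (b : ℤ) ≠ 0 := by exact_mod_cast (by omega : b ≠ 0)
  have hbE : (b : E) ≠ 0 := by exact_mod_cast (by omega : b ≠ 0)
  have hdeg : (minpoly ℤ (w : k)).natDegree ≤ m := by
    rw [hm, ← (minpoly.monic hai).natDegree_map (algebraMap ℤ ℚ), ← hmp]
    exact minpoly.natDegree_le _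
  have hP0 : minpoly ℤ (w : k) ≠ 0 := (minpoly.monic hai).ne_zero
  rw [← hm]
  refine ⟨(minpoly ℤ (w : k)).comp (C (b : ℤ) * Polynomial.X), ?_, ?_, fun i => ?_, ?_⟩
  · intro h0
    apply hP0
    ext i
    have h1 := congrArg (fun p : ℤ[X] => p.coeff i) h0
    simp only [comp_C_mul_X_coeff, coeff_zero] at h1
    rw [coeff_zero]
    exact (mul_eq_zero.1 h1).resolve_right (pow_ne_zero _ hb0)
  · refine natDegree_comp_le.trans ?_
    have h1 : (C (b : ℤ) * Polynomial.X : ℤ[X]).natDegree ≤ 1 := by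
      refine (natDegree_C_mul_le _ _).trans ?_
      exact natDegree_X_le
    calc (minpoly ℤ (w : k)).natDegree * (C (b : ℤ) * Polynomial.X : ℤ[X]).natDegree
        ≤ (minpoly ℤ (w : k)).natDegree * 1 := Nat.mul_le_mul_left _ h1
      _ ≤ m := by rw [mul_one]; exact hdeg
  · rw [comp_C_mul_X_coeff, abs_mul]
    by_cases hi : i ≤ m
    · have hbr : (1 : ℝ) ≤ (b : ℝ) := by exact_mod_cast hb
      have hXr : (2 : ℝ) ≤ (X : ℝ) := by exact_mod_cast hX
      have hX1 : (1 : ℝ) ≤ (X : ℝ) := by linarith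
      have h1 := coef w ((2 * (b * X) : ℕ) : ℝ) (by
        have : 1 ≤ 2 * (b * X) := by
          have : 0 < b * X := Nat.mul_pos (by omega) (by omega)
          omega
        exact_mod_cast this) hw i
      rw [← hm] at h1
      have h2 : ((|((b : ℤ)) ^ i| : ℤ) : ℝ) ≤ (b : ℝ) ^ m := by
        rw [abs_of_nonneg (by positivity)]
        push_cast
        exact pow_le_pow_right₀ hbr hi
      have h3 : ((|(minpoly ℤ (w : k)).coeff i| * |((b : ℤ)) ^ i| : ℤ) : ℝ) ≤
          ((2 * ((2 * (b * X) : ℕ) : ℝ)) ^ m) * (b : ℝ) ^ m := by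
        rw [Int.cast_mul]
        exact mul_le_mul h1 h2 (by positivity) (by positivity)
      have h4 : ((2 * ((2 * (b * X) : ℕ) : ℝ)) ^ m) * (b : ℝ) ^ m ≤
          (X : ℝ) ^ ((2 * A + 3) * m) := by
        rw [← mul_pow, pow_mul]
        apply pow_le_pow_left₀ (by positivity)
        have h5 : (b : ℝ) ≤ (X : ℝ) ^ A := by exact_mod_cast hbA
        have h6 : (4 : ℝ) ≤ (X : ℝ) ^ 2 := by nlinarith
        push_cast
        calc 2 * (2 * ((b : ℝ) * X)) * b = 4 * ((b : ℝ) * b) * X := by ring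
          _ ≤ (X : ℝ) ^ 2 * ((X : ℝ) ^ A * (X : ℝ) ^ A) * X := by gcongr
          _ = (X : ℝ) ^ (2 * A + 3) := by ring
      have h7 : ((|(minpoly ℤ (w : k)).coeff i| * |((b : ℤ)) ^ i| : ℤ) : ℝ) ≤
          (((X ^ ((2 * A + 3) * m) : ℕ) : ℤ) : ℝ) := by
        refine (h3.trans h4).trans (le_of_eq ?_)
        push_cast
        rfl
      exact_mod_cast h7
    · rw [coeff_eq_zero_of_natDegree_lt (by omega), abs_zero, zero_mul]
      positivity
  · have h1 : aeval (σ (w : k) / (b : E)) ((minpoly ℤ (w : k)).comp (C (b : ℤ) * Polynomial.X)) =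
        σ (aeval (w : k) (minpoly ℤ (w : k))) := by
      rw [aeval_comp]
      have h2 : aeval (σ (w : k) / (b : E)) (C (b : ℤ) * Polynomial.X : ℤ[X]) = σ (w : k) := by
        rw [map_mul, aeval_X, aeval_C]
        simp only [algebraMap_int_eq, eq_intCast, Int.cast_natCast]
        field_simp
      rw [h2, aeval_def, aeval_def, hom_eval₂]
      congr 1
      exact RingHom.ext_int _ _
    rw [h1, minpoly.aeval, map_zero]

open scoped Classical in
theorem frc : FrcStmt := by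
  intro E _ _ S hS k _ _ σ A
  obtain ⟨m, hm⟩ : ∃ m, m = Module.finrank ℚ k := ⟨_, rfl⟩
  obtain ⟨C0, δ, hδ, hC⟩ := hS (Module.finrank ℚ k) ((2 * A + 3) * Module.finrank ℚ k)
  obtain ⟨C1, hC1⟩ := boxA k
  rw [← hm] at hC hC1 ⊢
  refine ⟨C1 * 3 ^ m * C0 + C1 * 2 ^ m, δ, hδ, ?_⟩
  intro X hX
  have hXr : (1 : ℝ) ≤ (X : ℝ) := by exact_mod_cast hX
  have hXp : (0 : ℝ) < (X : ℝ) := by linarith
  -- the finite sets
  let B : ℕ → Finset (𝓞 k) := fun Y => (hC1 Y).1.toFinset
  have hB : ∀ (Y : ℕ) (a : 𝓞 k), a ∈ B Y ↔ house (a : k) ≤ Y := fun Y a => by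
    rw [(hC1 Y).1.mem_toFinset]
    rfl
  have hBc : ∀ Y : ℕ, ((B Y).card : ℝ) ≤ C1 * ((Y : ℝ) + 1) ^ m := by
    intro Y
    have h1 := (hC1 Y).2
    rw [Nat.subtype_card (B Y) (hB Y)] at h1
    exact_mod_cast h1
  let F : ℕ → Finset (𝓞 k) := fun b => (B (b * X)).filter fun a => σ a / (b : E) ∈ S
  have hFm : ∀ (b : ℕ) (a : 𝓞 k), a ∈ F b ↔ (house (a : k) ≤ ((b * X : ℕ) : ℝ) ∧
      σ a / (b : E) ∈ S) := fun b a => by
    rw [Finset.mem_filter, hB]
  let T : Finset (𝓞 k × ℕ) := (Finset.Icc 1 (X ^ A)).biUnion fun b => (F b).image fun a => (a, b)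
  have hT : Nat.card {p : 𝓞 k × ℕ // 1 ≤ p.2 ∧ p.2 ≤ X ^ A ∧ house (p.1 : k) ≤ p.2 * X ∧
      σ p.1 / (p.2 : E) ∈ S} = T.card := by
    apply Nat.subtype_card
    rintro ⟨a, b⟩
    rw [Finset.mem_biUnion]
    constructor
    · rintro ⟨b', hb', h⟩
      rw [Finset.mem_image] at h
      obtain ⟨a', ha', h⟩ := h
      obtain ⟨rfl, rfl⟩ := Prod.mk.inj h
      rw [Finset.mem_Icc] at hb'
      rw [hFm] at ha'
      refine ⟨hb'.1, hb'.2, ?_, ha'.2⟩
      have h1 := ha'.1
      push_cast at h1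
      exact h1
    · rintro ⟨h1, h2, h3, h4⟩
      refine ⟨b, Finset.mem_Icc.2 ⟨h1, h2⟩, Finset.mem_image.2 ⟨a, (hFm b a).2 ⟨?_, h4⟩, rfl⟩⟩
      push_cast
      exact h3
  have hTle : (T.card : ℝ) ≤ ∑ b ∈ Finset.Icc 1 (X ^ A), ((F b).card : ℝ) := by
    have h1 : T.card ≤ ∑ b ∈ Finset.Icc 1 (X ^ A), (F b).card :=
      Finset.card_biUnion_le.trans (Finset.sum_le_sum fun b _ => Finset.card_image_le)
    exact_mod_cast h1
  rw [hT]
  push_cast
  rcases lt_or_ge X 2 with hlt | hge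
  · -- `X = 1`
    have hX1 : X = 1 := by omega
    subst hX1
    refine hTle.trans ?_
    rw [one_pow, Finset.Icc_self, Finset.sum_singleton, Nat.cast_one, Real.one_rpow, mul_one]
    have h1 : ((F 1).card : ℝ) ≤ ((B (1 * 1)).card : ℝ) := by
      exact_mod_cast Finset.card_le_card (Finset.filter_subset _ _)
    have h2 := hBc (1 * 1)
    have h3 : (0 : ℝ) ≤ C1 * 3 ^ m * C0 := by positivity
    have h4 : (((1 * 1 : ℕ) : ℝ) + 1) = 2 := by norm_num
    rw [h4] at h2
    linarith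
  · have hFle : ∀ b ∈ Finset.Icc 1 (X ^ A), ((F b).card : ℝ) ≤
        C1 * 3 ^ m * C0 * ((X : ℝ) ^ (A * m) * (X : ℝ) ^ ((m : ℝ) - δ)) := by
      intro b hb
      rw [Finset.mem_Icc] at hb
      let G : 𝓞 k → Finset ℕ := fun w => (Finset.range X).filter fun j : ℕ =>
        σ w / (b : E) + (j : E) ∈ S
      have hG : ∀ w : 𝓞 k, Nat.card {κ : ℕ // κ < X ∧ σ (w : k) / (b : E) + (κ : E) ∈ S} =
          (G w).card := by
        intro w
        apply Nat.subtype_card
        intro j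
        rw [Finset.mem_filter, Finset.mem_range]
      have hbE : (b : E) ≠ 0 := by exact_mod_cast (by omega : b ≠ 0)
      have hbr : (1 : ℝ) ≤ (b : ℝ) := by exact_mod_cast hb.1
      have hcount : (F b).card * X ≤ ∑ w ∈ B (2 * (b * X)), (G w).card := by
        rw [← Finset.card_sigma, ← Finset.card_range X, ← Finset.card_product]
        rw [Finset.card_range X]
        apply Finset.card_le_card_of_injOn
          (fun x : 𝓞 k × ℕ => (⟨x.1 - ((b * x.2 : ℕ) : 𝓞 k), x.2⟩ : (_ : 𝓞 k) × ℕ))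
        · intro x hx
          rw [Finset.mem_coe, Finset.mem_product, hFm, Finset.mem_range] at hx
          rw [Finset.mem_coe, Finset.mem_sigma, hB, Finset.mem_filter, Finset.mem_range]
          refine ⟨?_, hx.2, ?_⟩
          · have h1 : ((x.1 - ((b * x.2 : ℕ) : 𝓞 k) : 𝓞 k) : k) =
                (x.1 : k) + ((-((b * x.2 : ℕ) : ℤ) : ℤ) : k) := by
              push_cast
              ring
            have h2 := house_add_le (x.1 : k) ((-((b * x.2 : ℕ) : ℤ) : ℤ) : k)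
            rw [house_intCast] at h2
            have h3 : ((|(-((b * x.2 : ℕ) : ℤ))| : ℤ) : ℝ) = ((b * x.2 : ℕ) : ℝ) := by
              rw [abs_neg, Nat.abs_cast]
              push_cast
              rfl
            rw [h3] at h2
            have h4 : ((b * x.2 : ℕ) : ℝ) ≤ ((b * X : ℕ) : ℝ) := by
              exact_mod_cast Nat.mul_le_mul_left b hx.2.le
            show house ((x.1 - ((b * x.2 : ℕ) : 𝓞 k) : 𝓞 k) : k) ≤ ((2 * (b * X) : ℕ) : ℝ)
            have h5 : house ((x.1 - ((b * x.2 : ℕ) : 𝓞 k) : 𝓞 k) : k) ≤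
                house (x.1 : k) + ((b * x.2 : ℕ) : ℝ) := by
              rw [h1]
              exact h2
            have h6 : ((2 * (b * X) : ℕ) : ℝ) = 2 * ((b * X : ℕ) : ℝ) := by
              push_cast
              rfl
            rw [h6]
            linarith [hx.1.1]
          · show σ ((x.1 - ((b * x.2 : ℕ) : 𝓞 k) : 𝓞 k) : k) / (b : E) + (x.2 : E) ∈ S
            have h1 : σ ((x.1 - ((b * x.2 : ℕ) : 𝓞 k) : 𝓞 k) : k) / (b : E) + (x.2 : E) =
                σ (x.1 : k) / (b : E) := by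
              push_cast
              rw [map_sub, map_mul, map_natCast, map_natCast]
              field_simp
              ring
            rw [h1]
            exact hx.1.2
        · intro x _ y _ hxy
          have h1 : x.2 = y.2 := congrArg Sigma.snd hxy
          have h2 : x.1 - ((b * x.2 : ℕ) : 𝓞 k) = y.1 - ((b * y.2 : ℕ) : 𝓞 k) :=
            congrArg Sigma.fst hxy
          rw [h1] at h2
          exact Prod.ext (sub_left_injective h2) h1
      have hGle : ∀ w ∈ B (2 * (b * X)), ((G w).card : ℝ) ≤ C0 * (X : ℝ) ^ (1 - δ) := by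
        intro w hw
        rw [← hG w]
        rw [hB] at hw
        have h1 := mem_Ap σ w b X A hge hb.1 hb.2 hw
        rw [← hm] at h1
        exact hC X hX _ h1
      have h1 : ((F b).card : ℝ) * X ≤
          (C1 * (2 * (b * X) + 1) ^ m) * (C0 * (X : ℝ) ^ (1 - δ)) := by
        calc ((F b).card : ℝ) * X = (((F b).card * X : ℕ) : ℝ) := by push_cast; rfl
          _ ≤ ((∑ w ∈ B (2 * (b * X)), (G w).card : ℕ) : ℝ) := by exact_mod_cast hcount
          _ = ∑ w ∈ B (2 * (b * X)), ((G w).card : ℝ) := by push_cast; rfl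
          _ ≤ ∑ w ∈ B (2 * (b * X)), C0 * (X : ℝ) ^ (1 - δ) := Finset.sum_le_sum hGle
          _ = ((B (2 * (b * X))).card : ℝ) * (C0 * (X : ℝ) ^ (1 - δ)) := by
            rw [Finset.sum_const, nsmul_eq_mul]
          _ ≤ _ := by
            apply mul_le_mul_of_nonneg_right
            · have := hBc (2 * (b * X))
              push_cast at this
              exact this
            · positivity
      have hb2 : (b : ℝ) ≤ (X : ℝ) ^ A := by exact_mod_cast hb.2
      have h2 : ((2 : ℝ) * (b * X) + 1) ^ m ≤ (3 * ((X : ℝ) ^ A * X)) ^ m := by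
        apply pow_le_pow_left₀ (by positivity)
        have h3 : (1 : ℝ) ≤ (X : ℝ) ^ A * X := by
          have h4 : (1 : ℝ) ≤ (X : ℝ) ^ A := one_le_pow₀ hXr
          nlinarith
        have h5 : (b : ℝ) * X ≤ (X : ℝ) ^ A * X := mul_le_mul_of_nonneg_right hb2 hXp.le
        linarith
      have h3 : (X : ℝ) ^ m * (X : ℝ) ^ (1 - δ) = (X : ℝ) ^ ((m : ℝ) - δ) * X := by
        rw [← Real.rpow_natCast, ← Real.rpow_add hXp]
        have : (m : ℝ) + (1 - δ) = ((m : ℝ) - δ) + 1 := by ring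
        rw [this, Real.rpow_add hXp, Real.rpow_one]
      have h4 : ((F b).card : ℝ) * X ≤
          (C1 * 3 ^ m * C0 * ((X : ℝ) ^ (A * m) * (X : ℝ) ^ ((m : ℝ) - δ))) * X := by
        calc ((F b).card : ℝ) * X ≤ (C1 * (2 * (b * X) + 1) ^ m) * (C0 * (X : ℝ) ^ (1 - δ)) := h1
          _ ≤ (C1 * (3 * ((X : ℝ) ^ A * X)) ^ m) * (C0 * (X : ℝ) ^ (1 - δ)) := by
            apply mul_le_mul_of_nonneg_right
            · exact mul_le_mul_of_nonneg_left h2 (Nat.cast_nonneg C1)
            · positivity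
          _ = C1 * 3 ^ m * C0 * (X : ℝ) ^ (A * m) * ((X : ℝ) ^ m * (X : ℝ) ^ (1 - δ)) := by
            rw [mul_pow, mul_pow, ← pow_mul]
            ring
          _ = _ := by
            rw [h3]
            ring
      exact le_of_mul_le_mul_right h4 hXp
    refine hTle.trans ((Finset.sum_le_sum hFle).trans ?_)
    rw [Finset.sum_const, nsmul_eq_mul, Nat.card_Icc, Nat.add_sub_cancel]
    push_cast
    have h1 : (X : ℝ) ^ A * (C1 * 3 ^ m * C0 * ((X : ℝ) ^ (A * m) * (X : ℝ) ^ ((m : ℝ) - δ))) =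
        C1 * 3 ^ m * C0 * (X : ℝ) ^ ((m : ℝ) + A * (m + 1) - δ) := by
      have h2 : (X : ℝ) ^ ((m : ℝ) + A * (m + 1) - δ) =
          (X : ℝ) ^ A * ((X : ℝ) ^ (A * m) * (X : ℝ) ^ ((m : ℝ) - δ)) := by
        rw [← Real.rpow_natCast (X : ℝ) A, ← Real.rpow_natCast (X : ℝ) (A * m),
          ← Real.rpow_add hXp, ← Real.rpow_add hXp]
        congr 1
        push_cast
        ring
      rw [h2]
      ring
    rw [h1]
    have h2 : (0 : ℝ) ≤ C1 * 2 ^ m * (X : ℝ) ^ ((m : ℝ) + A * (m + 1) - δ) := by positivity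
    rw [add_mul]
    linarith

end Pool.Agent.HUK.H20
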